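import Mathlib
import Pool.Agent.R355.Dirichlet

/-!
# Near relations: the linear algebra and the transfer to simultaneous approximation
-/

set_option autoImplicit false

namespace Pool.Agent.H55NR

open Matrix Finset

/-- a nonvanishing maximal minor -/
lemma exists_minor {R : ℕ} {ι : Type} [Fintype ι] [DecidableEq ι] (N : Matrix (Fin R) ι ℤ)
    (h : LinearIndependent ℤ (fun i => N i)) :
    ∃ g : Fin R → ι, Function.Injective g ∧ (N.submatrix id g).det ≠ 0 := by
  classical
  -- over ℚ
  let W : Matrix (Fin R) ι ℚ := N.map (Int.cast)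
  have h1 : LinearIndependent ℤ (fun i => W i) := by
    let φ : (ι → ℤ) →ₗ[ℤ] (ι → ℚ) :=
      { toFun := fun f c => (f c : ℚ)
        map_add' := by intro x y; funext c; simp
        map_smul' := by intro m x; funext c; simp }
    have hφ : LinearMap.ker φ = ⊥ := by
      rw [LinearMap.ker_eq_bot]
      intro x y hxy
      funext c
      have h0 : (x c : ℚ) = (y c : ℚ) := congrFun hxy c
      exact_mod_cast h0
    exact h.map' φ hφ
  have h2 : LinearIndependent ℚ (fun i => W i) := (LinearIndependent.iff_fractionRing ℤ ℚ).1 h1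
  have h3 : W.rank = R := by
    have := LinearIndependent.rank_matrix (M := W) h2
    simpa using this
  obtain ⟨κ, a, ha, hspan, hli⟩ := exists_linearIndependent' ℚ (fun c : ι => W.col c)
  have hfinκ : Finite κ := Finite.of_injective a ha
  have : Fintype κ := Fintype.ofFinite κ
  have hcard : Fintype.card κ = R := by
    have e1 := finrank_span_eq_card hli
    have e2 : Module.finrank ℚ (Submodule.span ℚ (Set.range fun c : ι => W.col c)) = R :=
      (Matrix.rank_eq_finrank_span_cols W).symm.trans h3
    have e3 : Module.finrank ℚ (Submodule.span ℚ (Set.range ((fun c : ι => W.col c) ∘ a))) = R :=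
      (congrArg (fun S : Submodule ℚ (Fin R → ℚ) => Module.finrank ℚ S) hspan).trans e2
    exact e1.symm.trans e3
  let e : Fin R ≃ κ := (Fintype.equivFinOfCardEq hcard).symm
  refine ⟨a ∘ e, ha.comp e.injective, ?_⟩
  have h5 : LinearIndependent ℚ (fun i => (W.submatrix id (a ∘ e)).col i) := by
    have := hli.comp e e.injective
    exact this
  have h6 : IsUnit (W.submatrix id (a ∘ e)) := Matrix.linearIndependent_cols_iff_isUnit.1 h5
  have h7 : (W.submatrix id (a ∘ e)).det ≠ 0 := by
    have := (Matrix.isUnit_iff_isUnit_det _).1 h6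
    exact this.ne_zero
  intro h8
  apply h7
  have h9 : (W.submatrix id (a ∘ e)) = (N.submatrix id (a ∘ e)).map (Int.castRingHom ℚ) := by
    ext i j; rfl
  rw [h9, ← RingHom.mapMatrix_apply, ← RingHom.map_det, h8, map_zero]

/-- bound for the entries of the adjugate -/
lemma abs_det_le {R : ℕ} (A : Matrix (Fin R) (Fin R) ℤ) {X : ℕ} (hA : ∀ i j, |A i j| ≤ X) :
    |A.det| ≤ (R.factorial * X ^ R : ℕ) := by
  have h := Matrix.det_le (n := Fin R) (A := A) (abv := AbsoluteValue.abs) (x := (X : ℤ)) (fun i j => hA i j)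
  simpa [nsmul_eq_mul] using h

lemma abs_adj_le {R : ℕ} (A : Matrix (Fin R) (Fin R) ℤ) {X : ℕ} (hX : 1 ≤ X) (hA : ∀ i j, |A i j| ≤ X) (i j : Fin R) :
    |A.adjugate i j| ≤ (R.factorial * X ^ R : ℕ) := by
  rw [Matrix.adjugate_apply]
  apply abs_det_le
  intro a b
  rw [Matrix.updateRow_apply]
  split_ifs with h
  · rw [Pi.single_apply]
    split_ifs
    · simp; exact_mod_cast hX
    · simp
  · exact hA a b

end Pool.Agent.H55NR
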