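import Mathlib
import Pool.Agent.H55NR.Lin

/-!
# Near relations: Cramer's rule
-/

set_option autoImplicit false

namespace Pool.Agent.H55NR

open Matrix Finset

variable {R : ℕ} {κ : Type} [Fintype κ] [DecidableEq κ]

/-- the linear form of a row -/
noncomputable def form (N : Matrix (Fin R) (Option κ) ℤ) (Y : Option κ → ℝ) (i : Fin R) : ℝ := ∑ c, (N i c : ℝ) * Y c

/-- coefficients after the elimination -/
def co (N : Matrix (Fin R) (Option κ) ℤ) (g : Fin R → Option κ) (i0 : Fin R) (c : Option κ) : ℤ :=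
  ∑ i, (N.submatrix id g).adjugate i0 i * N i c

omit [Fintype κ] [DecidableEq κ] in
lemma cramer_real (A : Matrix (Fin R) (Fin R) ℤ) (x : Fin R → ℝ) (i0 : Fin R) :
    (A.det : ℝ) * x i0 = ∑ i, (A.adjugate i0 i : ℝ) * ∑ j, (A i j : ℝ) * x j := by
  have h1 : ∀ j, ∑ i, A.adjugate i0 i * A i j = if i0 = j then A.det else 0 := by
    intro j
    have h2 := congrFun (congrFun (Matrix.adjugate_mul A) i0) j
    rw [Matrix.mul_apply] at h2
    rw [h2, Matrix.smul_apply, Matrix.one_apply, smul_eq_mul]
    split_ifs <;> simp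
  calc (A.det : ℝ) * x i0 = ∑ j, ((if i0 = j then A.det else 0 : ℤ) : ℝ) * x j := by
        rw [Finset.sum_eq_single i0]
        · simp
        · intro j _ hj
          simp [Ne.symm hj]
        · intro h; exact absurd (Finset.mem_univ _) h
    _ = ∑ j, ((∑ i, A.adjugate i0 i * A i j : ℤ) : ℝ) * x j := by
        apply Finset.sum_congr rfl; intro j _; rw [h1]
    _ = ∑ i, (A.adjugate i0 i : ℝ) * ∑ j, (A i j : ℝ) * x j := by
        simp only [Int.cast_sum, Int.cast_mul, Finset.sum_mul, Finset.mul_sum]
        rw [Finset.sum_comm]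
        apply Finset.sum_congr rfl; intro i _
        apply Finset.sum_congr rfl; intro j _
        ring

/-- expression of a pivot coordinate by the free coordinates -/
lemma pivot_expand (N : Matrix (Fin R) (Option κ) ℤ) (Y : Option κ → ℝ) (g : Fin R → Option κ)
    (hg : Function.Injective g) (i0 : Fin R) :
    ((N.submatrix id g).det : ℝ) * Y (g i0) =
      ∑ i, ((N.submatrix id g).adjugate i0 i : ℝ) * form N Y i -
        ∑ c ∈ (Finset.univ.image g)ᶜ, (co N g i0 c : ℝ) * Y c := by
  rw [cramer_real (N.submatrix id g) (fun j => Y (g j)) i0]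
  have h1 : ∀ i, form N Y i = ∑ j, ((N.submatrix id g) i j : ℝ) * Y (g j) +
      ∑ c ∈ (Finset.univ.image g)ᶜ, (N i c : ℝ) * Y c := by
    intro i
    unfold form
    rw [← Finset.sum_add_sum_compl (Finset.univ.image g), Finset.sum_image (fun a _ b _ h => hg h)]
    rfl
  simp only [h1, mul_add, Finset.sum_add_distrib]
  have h2 : ∑ i, ((N.submatrix id g).adjugate i0 i : ℝ) * ∑ c ∈ (Finset.univ.image g)ᶜ, (N i c : ℝ) * Y c =
      ∑ c ∈ (Finset.univ.image g)ᶜ, (co N g i0 c : ℝ) * Y c := by
    simp only [co, Int.cast_sum, Int.cast_mul, Finset.sum_mul, Finset.mul_sum]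
    rw [Finset.sum_comm]
    apply Finset.sum_congr rfl; intro c _
    apply Finset.sum_congr rfl; intro i _
    ring
  rw [h2]
  ring

/-- bound of the error -/
lemma err_le (N : Matrix (Fin R) (Option κ) ℤ) (Y : Option κ → ℝ) (g : Fin R → Option κ) {X : ℕ} (hX : 1 ≤ X)
    (hN : ∀ i c, |N i c| ≤ X) {ε : ℝ} (hε : ∀ i, |form N Y i| ≤ ε) (i0 : Fin R) :
    |∑ i, ((N.submatrix id g).adjugate i0 i : ℝ) * form N Y i| ≤ (((R + 1).factorial * X ^ (R + 1) : ℕ) : ℝ) * ε := by
  have h0 : 0 ≤ ε := (abs_nonneg _).trans (hε i0)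
  calc |∑ i, ((N.submatrix id g).adjugate i0 i : ℝ) * form N Y i|
      ≤ ∑ i, |((N.submatrix id g).adjugate i0 i : ℝ) * form N Y i| := Finset.abs_sum_le_sum_abs _ _
    _ ≤ ∑ _i : Fin R, ((R.factorial * X ^ R : ℕ) : ℝ) * ε := by
        apply Finset.sum_le_sum
        intro i _
        rw [abs_mul]
        have h1 := abs_adj_le (N.submatrix id g) hX (fun a b => hN _ _) i0 i
        have h2 : |((N.submatrix id g).adjugate i0 i : ℝ)| ≤ ((R.factorial * X ^ R : ℕ) : ℝ) := by
          rw [← Int.cast_abs]
          exact_mod_cast h1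
        exact mul_le_mul h2 (hε i) (abs_nonneg _) (by positivity)
    _ = ((R * (R.factorial * X ^ R) : ℕ) : ℝ) * ε := by
        rw [Finset.sum_const, Finset.card_univ, Fintype.card_fin, nsmul_eq_mul]
        push_cast
        ring
    _ ≤ _ := by
        apply mul_le_mul_of_nonneg_right _ h0
        have : R * (R.factorial * X ^ R) ≤ (R + 1).factorial * X ^ (R + 1) := by
          rw [Nat.factorial_succ, pow_succ]
          have : X ^ R ≤ X ^ R * X := Nat.le_mul_of_pos_right _ (by omega)
          calc R * (R.factorial * X ^ R) ≤ (R + 1) * (R.factorial * (X ^ R * X)) :=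
                Nat.mul_le_mul (by omega) (Nat.mul_le_mul_left _ this)
            _ = _ := by ring
        exact_mod_cast this

lemma co_le (N : Matrix (Fin R) (Option κ) ℤ) (g : Fin R → Option κ) {X : ℕ} (hX : 1 ≤ X)
    (hN : ∀ i c, |N i c| ≤ X) (i0 : Fin R) (c : Option κ) :
    |co N g i0 c| ≤ (((R + 1).factorial * X ^ (R + 1) : ℕ) : ℤ) := by
  unfold co
  calc |∑ i, (N.submatrix id g).adjugate i0 i * N i c|
      ≤ ∑ i, |(N.submatrix id g).adjugate i0 i * N i c| := Finset.abs_sum_le_sum_abs _ _
    _ ≤ ∑ _i : Fin R, ((R.factorial * X ^ R : ℕ) : ℤ) * X := by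
        apply Finset.sum_le_sum
        intro i _
        rw [abs_mul]
        exact mul_le_mul (abs_adj_le (N.submatrix id g) hX (fun a b => hN _ _) i0 i) (hN i c) (abs_nonneg _)
          (by positivity)
    _ = ((R * (R.factorial * X ^ R) * X : ℕ) : ℤ) := by
        rw [Finset.sum_const, Finset.card_univ, Fintype.card_fin, nsmul_eq_mul]
        push_cast
        ring
    _ ≤ _ := by
        have : R * (R.factorial * X ^ R) * X ≤ (R + 1).factorial * X ^ (R + 1) := by
          rw [Nat.factorial_succ, pow_succ]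
          calc R * (R.factorial * X ^ R) * X = R * (R.factorial * (X ^ R * X)) := by ring
            _ ≤ (R + 1) * (R.factorial * (X ^ R * X)) := Nat.mul_le_mul_right _ (by omega)
            _ = _ := by ring
        exact_mod_cast this

omit [Fintype κ] [DecidableEq κ] in
lemma det_le' (N : Matrix (Fin R) (Option κ) ℤ) (g : Fin R → Option κ) {X : ℕ} (hX : 1 ≤ X)
    (hN : ∀ i c, |N i c| ≤ X) : |(N.submatrix id g).det| ≤ (((R + 1).factorial * X ^ (R + 1) : ℕ) : ℤ) := by
  refine (abs_det_le (N.submatrix id g) (X := X) (fun a b => hN _ _)).trans ?_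
  have : R.factorial * X ^ R ≤ (R + 1).factorial * X ^ (R + 1) :=
    Nat.mul_le_mul (Nat.factorial_le (by omega)) (Nat.pow_le_pow_right hX (by omega))
  exact_mod_cast this

/-- the constant coordinate is not needed as a pivot -/
lemma exists_pivot (N : Matrix (Fin R) (Option κ) ℤ) (hN : LinearIndependent ℤ (fun i => N i)) (Y : Option κ → ℝ)
    (hY : Y none = 1) {X : ℕ} (hX : 1 ≤ X) (hNX : ∀ i c, |N i c| ≤ X) {ε : ℝ} (hε : ∀ i, |form N Y i| ≤ ε)
    (hlt : (((R + 1).factorial * X ^ (R + 1) : ℕ) : ℝ) * ε < 1) :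
    ∃ g : Fin R → Option κ, Function.Injective g ∧ (N.submatrix id g).det ≠ 0 ∧ ∀ i, g i ≠ none := by
  classical
  obtain ⟨g, hg, hdet⟩ := exists_minor N hN
  by_cases hnone : ∀ i, g i ≠ none
  · exact ⟨g, hg, hdet, hnone⟩
  push Not at hnone
  obtain ⟨i0, hi0⟩ := hnone
  by_cases hc : ∃ c ∈ (Finset.univ.image g)ᶜ, co N g i0 c ≠ 0
  · obtain ⟨c, hcm, hc0⟩ := hc
    rw [Finset.mem_compl, Finset.mem_image] at hcm
    push Not at hcm
    refine ⟨Function.update g i0 c, ?_, ?_, ?_⟩
    · intro a b hab
      by_cases ha : a = i0 <;> by_cases hb : b = i0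
      · rw [ha, hb]
      · subst ha
        rw [Function.update_self, Function.update_of_ne hb] at hab
        exact absurd hab.symm (hcm b (Finset.mem_univ _))
      · subst hb
        rw [Function.update_self, Function.update_of_ne ha] at hab
        exact absurd hab (hcm a (Finset.mem_univ _))
      · rw [Function.update_of_ne ha, Function.update_of_ne hb] at hab
        exact hg hab
    · have h1 : N.submatrix id (Function.update g i0 c) =
          (N.submatrix id g).updateCol i0 (fun i => N i c) := by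
        ext a b
        rw [Matrix.updateCol_apply, Matrix.submatrix_apply]
        by_cases hb : b = i0
        · subst hb; simp
        · simp [hb]
      rw [h1, ← Matrix.cramer_apply, Matrix.cramer_eq_adjugate_mulVec]
      exact hc0
    · intro a
      by_cases ha : a = i0
      · subst ha
        rw [Function.update_self]
        intro h
        exact hcm a (Finset.mem_univ _) (by rw [hi0, h])
      · rw [Function.update_of_ne ha]
        intro h
        exact ha (hg (by rw [h, hi0]))
  · push Not at hc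
    exfalso
    have h1 := pivot_expand N Y g hg i0
    rw [hi0, hY, mul_one] at h1
    have h2 : ∑ c ∈ (Finset.univ.image g)ᶜ, (co N g i0 c : ℝ) * Y c = 0 :=
      Finset.sum_eq_zero fun c hcm => by rw [hc c hcm]; simp
    rw [h2, sub_zero] at h1
    have h3 := err_le N Y g hX hNX hε i0
    rw [← h1] at h3
    have h4 : (1 : ℝ) ≤ |((N.submatrix id g).det : ℝ)| := by
      rw [← Int.cast_abs]
      exact_mod_cast Int.one_le_abs hdet
    linarith

end Pool.Agent.H55NR
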