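import Mathlib
import Pool.Agent.H55NR.Cra

/-!
# Near relations: transfer to simultaneous approximation
-/

set_option autoImplicit false

namespace Pool.Agent.H55NR

open Matrix Finset

variable {R : ℕ} {κ : Type} [Fintype κ] [DecidableEq κ]

/-- the coordinates together with `1` -/
def ext1 (y : κ → ℝ) : Option κ → ℝ := fun c => c.elim 1 y

/-- many small linear forms give simultaneous approximations -/
lemma transfer (N : Matrix (Fin R) (Option κ) ℤ) (hN : LinearIndependent ℤ (fun i => N i)) (y : κ → ℝ)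
    {X : ℕ} (hX : 1 ≤ X) (hNX : ∀ i c, |N i c| ≤ X) {ε : ℝ} (hε : ∀ i, |form N (ext1 y) i| ≤ ε) (hε0 : 0 ≤ ε)
    {H : ℕ} (hH : H = (R + 1).factorial * X ^ (R + 1)) (hlt : (H : ℝ) * ε < 1)
    {D : ℕ} (hD : Fintype.card κ ≤ R + D) {M Q : ℕ} (hM : 1 ≤ M) (hQ : 1 ≤ Q) :
    ∃ n : ℕ, M ≤ n ∧ n ≤ H * Q ^ D * M ∧
      ∀ c : κ, ∃ p : ℤ, |(n : ℝ) * y c - p| ≤ (D + 1) * (H / Q) + Q ^ D * M * (H * ε) := by
  classical
  subst hH
  obtain ⟨g, hg, hdet, hnone⟩ := exists_pivot N hN (ext1 y) rfl hX hNX hε hlt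
  set H : ℕ := (R + 1).factorial * X ^ (R + 1) with hH
  set Δ : ℤ := (N.submatrix id g).det with hΔ
  have hΔH : |Δ| ≤ (H : ℤ) := det_le' N g hX hNX
  have hQ0 : (0 : ℝ) < Q := by exact_mod_cast hQ
  have hQ1 : (1 : ℝ) ≤ Q := by exact_mod_cast hQ
  -- the free coordinates
  let Fs : Finset κ := Finset.univ.filter fun c => some c ∉ Finset.univ.image g
  have hcompl : (Finset.univ.image g)ᶜ = insert none (Fs.map Function.Embedding.some) := by
    ext c
    rw [Finset.mem_compl, Finset.mem_insert, Finset.mem_map]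
    cases c with
    | none =>
      simp only [true_or, iff_true]
      rw [Finset.mem_image]
      rintro ⟨i, _, hi⟩
      exact hnone i hi
    | some c =>
      simp only [Fs, Finset.mem_filter, Finset.mem_univ, true_and, reduceCtorEq, false_or,
        Function.Embedding.some_apply, Option.some.injEq, exists_eq_right]
  have hnn : (none : Option κ) ∉ Fs.map Function.Embedding.some := by
    rw [Finset.mem_map]
    rintro ⟨c, _, hc⟩
    simp at hc
  have hcard : Fs.card + R = Fintype.card κ := by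
    have h1 := Finset.card_compl (Finset.univ.image g)
    rw [hcompl, Finset.card_insert_of_notMem hnn, Finset.card_map, Finset.card_image_of_injective _ hg,
      Finset.card_univ, Fintype.card_fin, Fintype.card_option] at h1
    have h2 : R ≤ Fintype.card κ + 1 := by
      have := Fintype.card_le_of_injective g hg
      simpa using this
    omega
  have hDF : Fs.card ≤ D := by omega
  -- Dirichlet
  obtain ⟨t, ht1, ht2, ht⟩ := Pool.Agent.R355.dirichlet (fun i : Fin Fs.card => (M : ℝ) * y (Fs.equivFin.symm i)) hQ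
  have ht2' : t ≤ Q ^ D := ht2.trans (Nat.pow_le_pow_right hQ hDF)
  have hF : ∀ c : κ, ∃ p : ℤ, c ∈ Fs → |(t : ℝ) * (M * y c) - p| < 1 / Q := by
    intro c
    by_cases hc : c ∈ Fs
    · obtain ⟨p, hp⟩ := ht (Fs.equivFin ⟨c, hc⟩)
      refine ⟨p, fun _ => ?_⟩
      simpa using hp
    · exact ⟨0, fun h => absurd h hc⟩
  choose p hp using hF
  have hn0 : 1 ≤ Δ.natAbs := Nat.one_le_iff_ne_zero.2 (Int.natAbs_ne_zero.2 hdet)
  have htR : (0 : ℝ) ≤ t := by positivity
  have htQ : (t : ℝ) ≤ (Q : ℝ) ^ D := by exact_mod_cast ht2'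
  have hMR : (0 : ℝ) ≤ M := by positivity
  have hHR : (0 : ℝ) ≤ H := by positivity
  have hDFR : (Fs.card : ℝ) ≤ D := by exact_mod_cast hDF
  -- approximation for `Δ t M y_c`
  have key : ∀ c : κ, ∃ r : ℤ, |(Δ : ℝ) * (t * (M * y c)) - r| ≤ (D + 1) * (H / Q) + Q ^ D * M * (H * ε) := by
    intro c
    by_cases hc : c ∈ Fs
    · refine ⟨Δ * p c, ?_⟩
      have e : (Δ : ℝ) * (t * (M * y c)) - ((Δ * p c : ℤ) : ℝ) = Δ * (t * (M * y c) - p c) := by push_cast; ring
      rw [e, abs_mul]
      have h1 : |(Δ : ℝ)| ≤ H := by rw [← Int.cast_abs]; exact_mod_cast hΔH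
      have h2 : |(Δ : ℝ)| * |(t : ℝ) * (M * y c) - p c| ≤ H * (1 / Q) :=
        mul_le_mul h1 (hp c hc).le (abs_nonneg _) hHR
      have h3 : (0 : ℝ) ≤ Q ^ D * M * (H * ε) := by positivity
      have h4 : (H : ℝ) * (1 / Q) ≤ (D + 1) * (H / Q) := by
        have : (0 : ℝ) ≤ D * (H / Q) := by positivity
        have e2 : (H : ℝ) * (1 / Q) = H / Q := by ring
        rw [e2]; linarith
      linarith
    · have hc' : some c ∈ Finset.univ.image g := by
        by_contra h
        exact hc (Finset.mem_filter.2 ⟨Finset.mem_univ _, h⟩)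
      obtain ⟨i0, _, hi0⟩ := Finset.mem_image.1 hc'
      have h1 := pivot_expand N (ext1 y) g hg i0
      rw [hi0, hcompl, Finset.sum_insert hnn, Finset.sum_map] at h1
      simp only [ext1, Option.elim, Function.Embedding.some_apply, mul_one] at h1
      have herr := err_le N (ext1 y) g hX hNX hε i0
      set er : ℝ := ∑ i, ((N.submatrix id g).adjugate i0 i : ℝ) * form N (ext1 y) i with her
      have h1' : (Δ : ℝ) * y c = er - ((co N g i0 none : ℝ) + ∑ x ∈ Fs, (co N g i0 (some x) : ℝ) * y x) := h1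
      refine ⟨-(t * M * co N g i0 none + ∑ x ∈ Fs, co N g i0 (some x) * p x), ?_⟩
      have e : (Δ : ℝ) * (t * (M * y c)) -
          ((-(t * M * co N g i0 none + ∑ x ∈ Fs, co N g i0 (some x) * p x) : ℤ) : ℝ) =
          t * (M * er) - ∑ x ∈ Fs, (co N g i0 (some x) : ℝ) * (t * (M * y x) - p x) := by
        have e1 : (Δ : ℝ) * (t * (M * y c)) = t * (M * (Δ * y c)) := by ring
        rw [e1, h1']
        push_cast
        simp only [mul_sub, Finset.sum_sub_distrib, mul_add]
        have e2 : ∑ x ∈ Fs, (co N g i0 (some x) : ℝ) * (t * (M * y x)) =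
            t * (M * ∑ x ∈ Fs, (co N g i0 (some x) : ℝ) * y x) := by
          rw [Finset.mul_sum, Finset.mul_sum]
          apply Finset.sum_congr rfl; intro x _; ring
        rw [e2]
        ring
      rw [e]
      have a1 : |(t : ℝ) * (M * er)| ≤ Q ^ D * M * (H * ε) := by
        rw [abs_mul, abs_mul, abs_of_nonneg htR, abs_of_nonneg hMR]
        calc (t : ℝ) * (M * |er|) = (t * M) * |er| := by ring
          _ ≤ (Q ^ D * M) * (H * ε) :=
            mul_le_mul (mul_le_mul_of_nonneg_right htQ hMR) herr (abs_nonneg _) (by positivity)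
      have a2 : |∑ x ∈ Fs, (co N g i0 (some x) : ℝ) * (t * (M * y x) - p x)| ≤ D * (H / Q) := by
        calc |∑ x ∈ Fs, (co N g i0 (some x) : ℝ) * (t * (M * y x) - p x)|
            ≤ ∑ x ∈ Fs, |(co N g i0 (some x) : ℝ) * (t * (M * y x) - p x)| := Finset.abs_sum_le_sum_abs _ _
          _ ≤ ∑ _x ∈ Fs, (H : ℝ) * (1 / Q) := by
              apply Finset.sum_le_sum
              intro x hx
              rw [abs_mul]
              have b1 : |(co N g i0 (some x) : ℝ)| ≤ H := by
                rw [← Int.cast_abs]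
                exact_mod_cast co_le N g hX hNX i0 (some x)
              exact mul_le_mul b1 (hp x hx).le (abs_nonneg _) hHR
          _ = Fs.card * (H / Q) := by
              rw [Finset.sum_const, nsmul_eq_mul]; ring
          _ ≤ D * (H / Q) := mul_le_mul_of_nonneg_right hDFR (by positivity)
      have a3 := abs_sub (t * (M * er)) (∑ x ∈ Fs, (co N g i0 (some x) : ℝ) * (t * (M * y x) - p x))
      have a4 : (0 : ℝ) ≤ H / Q := by positivity
      have a5 : ((D : ℝ) + 1) * (H / Q) = D * (H / Q) + H / Q := by ring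
      rw [a5]
      linarith
  refine ⟨Δ.natAbs * (t * M), ?_, ?_, ?_⟩
  · calc M = 1 * (1 * M) := by ring
      _ ≤ Δ.natAbs * (t * M) := Nat.mul_le_mul hn0 (Nat.mul_le_mul_right _ ht1)
  · have h1 : Δ.natAbs ≤ H := by
      have : (Δ.natAbs : ℤ) ≤ H := by rw [Int.natCast_natAbs]; exact hΔH
      exact_mod_cast this
    calc Δ.natAbs * (t * M) ≤ H * (Q ^ D * M) := Nat.mul_le_mul h1 (Nat.mul_le_mul_right _ ht2')
      _ = _ := by ring
  · intro c
    obtain ⟨r, hr⟩ := key c
    rcases Int.natAbs_eq Δ with h | h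
    · refine ⟨r, ?_⟩
      have e : ((Δ.natAbs * (t * M) : ℕ) : ℝ) * y c = (Δ : ℝ) * (t * (M * y c)) := by
        have : (Δ : ℝ) = (Δ.natAbs : ℝ) := by
          conv_lhs => rw [h]
          simp
        rw [this]; push_cast; ring
      rw [e]; exact hr
    · refine ⟨-r, ?_⟩
      have e : ((Δ.natAbs * (t * M) : ℕ) : ℝ) * y c - ((-r : ℤ) : ℝ) = -((Δ : ℝ) * (t * (M * y c)) - r) := by
        have : (Δ : ℝ) = -(Δ.natAbs : ℝ) := by
          conv_lhs => rw [h]
          simp
        rw [this]; push_cast; ring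
      rw [e, abs_neg]; exact hr

end Pool.Agent.H55NR
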