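import Mathlib
import Pool.Agent.H55NR.Tra
import Pool.Agent.Y926.TW.Main

/-!
# Near relations between many odd zeta values and arbitrary numbers
-/

set_option autoImplicit false

namespace Pool.Agent.H55NR

open Finset

/-- the numerical part -/
lemma numeric {R D M X H n : ℕ} (hM : 1 ≤ M) (hX : (R + 1).factorial + (D + 1 + M) ^ (2 * D + 2) * M + 2 ≤ X)
    (hH : H = (R + 1).factorial * X ^ (R + 1)) (hn : M ≤ n) (hn2 : n ≤ H * (H ^ 2) ^ D * M) {B : ℝ}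
    (hB : B ≤ (D + 1) * ((H : ℝ) / (H ^ 2 : ℕ)) + ((H ^ 2 : ℕ) : ℝ) ^ D * M * (H * (1 / (X : ℝ) ^ ((R + 2) * (2 * D + 2))))) :
    B < (n : ℝ) ^ (-(1 / ((2 * D + 2 : ℕ) : ℝ))) := by
  have hX2 : 2 ≤ X := by omega
  have hf1 : 1 ≤ (R + 1).factorial := Nat.factorial_pos _
  have hHX : X ≤ H := by
    rw [hH]
    calc X = 1 * X ^ 1 := by simp
      _ ≤ _ := Nat.mul_le_mul hf1 (Nat.pow_le_pow_right (by omega) (by omega))
  have hHX2 : H ≤ X ^ (R + 2) := by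
    rw [hH]
    calc (R + 1).factorial * X ^ (R + 1) ≤ X * X ^ (R + 1) := Nat.mul_le_mul_right _ (by omega)
      _ = X ^ (R + 2) := by ring
  have hH0 : (0 : ℝ) < H := by
    have : 0 < H := by omega
    exact_mod_cast this
  have hX0 : (0 : ℝ) < X := by
    have : 0 < X := by omega
    exact_mod_cast this
  have hn0 : (0 : ℝ) < n := by
    have : 0 < n := by omega
    exact_mod_cast this
  have hM0 : (0 : ℝ) < M := by exact_mod_cast hM
  -- the bound for `B`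
  have h1 : (1 : ℝ) / (X : ℝ) ^ ((R + 2) * (2 * D + 2)) ≤ 1 / (H : ℝ) ^ (2 * D + 2) := by
    apply one_div_le_one_div_of_le (by positivity)
    rw [pow_mul]
    apply pow_le_pow_left₀ hH0.le
    exact_mod_cast hHX2
  have h2 : B ≤ ((D : ℝ) + 1 + M) / H := by
    have e1 : (H : ℝ) / ((H ^ 2 : ℕ) : ℝ) = 1 / H := by
      push_cast
      field_simp
    have e2 : (((H ^ 2 : ℕ) : ℝ)) ^ D * M * (H * (1 / (X : ℝ) ^ ((R + 2) * (2 * D + 2)))) ≤ M / H := by
      calc (((H ^ 2 : ℕ) : ℝ)) ^ D * M * (H * (1 / (X : ℝ) ^ ((R + 2) * (2 * D + 2))))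
          ≤ (((H ^ 2 : ℕ) : ℝ)) ^ D * M * (H * (1 / (H : ℝ) ^ (2 * D + 2))) := by
            apply mul_le_mul_of_nonneg_left _ (by positivity)
            exact mul_le_mul_of_nonneg_left h1 hH0.le
        _ = M / H := by
            push_cast
            rw [← pow_mul, show 2 * D + 2 = 2 * D + 1 + 1 by ring, pow_succ (H : ℝ) (2 * D + 1),
              pow_succ (H : ℝ) (2 * D)]
            field_simp
    rw [e1] at hB
    calc B ≤ _ := hB
      _ ≤ ((D : ℝ) + 1) * (1 / H) + M / H := by linarith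
      _ = _ := by ring
  -- compare the powers
  by_contra hcon
  push Not at hcon
  have hS0 : ((2 * D + 2 : ℕ) : ℝ) ≠ 0 := by positivity
  have h3 : ((n : ℝ) ^ (-(1 / ((2 * D + 2 : ℕ) : ℝ)))) ^ (2 * D + 2) = (n : ℝ)⁻¹ := by
    rw [← Real.rpow_natCast, ← Real.rpow_mul hn0.le, neg_mul, one_div, inv_mul_cancel₀ hS0, Real.rpow_neg_one]
  have h4 := pow_le_pow_left₀ (by positivity) (hcon.trans h2) (2 * D + 2)
  rw [h3] at h4
  have h5 : 1 ≤ (((D : ℝ) + 1 + M) / H) ^ (2 * D + 2) * n := by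
    have := mul_le_mul_of_nonneg_right h4 hn0.le
    rwa [inv_mul_cancel₀ hn0.ne'] at this
  have h6 : (n : ℝ) ≤ H * (H ^ 2) ^ D * M := by exact_mod_cast hn2
  have h7 : (((D : ℝ) + 1 + M) / H) ^ (2 * D + 2) * n ≤ ((D : ℝ) + 1 + M) ^ (2 * D + 2) * M / H := by
    calc (((D : ℝ) + 1 + M) / H) ^ (2 * D + 2) * n
        ≤ (((D : ℝ) + 1 + M) / H) ^ (2 * D + 2) * (H * (H ^ 2) ^ D * M) :=
          mul_le_mul_of_nonneg_left h6 (by positivity)
      _ = _ := by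
          rw [div_pow, ← pow_mul, show 2 * D + 2 = 2 * D + 1 + 1 by ring, pow_succ (H : ℝ) (2 * D + 1),
              pow_succ (H : ℝ) (2 * D)]
          field_simp
  have h8 : ((D : ℝ) + 1 + M) ^ (2 * D + 2) * M / H < 1 := by
    rw [div_lt_one hH0]
    have : (D + 1 + M) ^ (2 * D + 2) * M < H := by omega
    exact_mod_cast this
  linarith

/-- **Main theorem.** -/
theorem main (b K s D r R : ℕ) (hK : 1 ≤ K)
    (hs : (2 : ℝ) ^ (264 * (D + 1)) * ((b : ℝ) + 1) ^ 2 * (K : ℝ) ^ 3 * Real.log (K + 1) ≤ (s : ℝ) ^ 2) :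
    ∃ X₀ : ℕ, ∀ X : ℕ, X₀ ≤ X → ∀ (t : Fin r → ℝ) (J : Finset ℕ), (∀ j ∈ J, b < j ∧ j ≤ s ∧ Odd j) →
      Set.ncard {j : ℕ | b < j ∧ j ≤ s ∧ Odd j ∧ j ∉ J} < K → J.card + r ≤ R + D →
      ∀ v : Fin R → ℤ × (J → ℤ) × (Fin r → ℤ), LinearIndependent ℤ v → (∀ i, ‖v i‖ ≤ X) →
      ∃ i, 1 / (X : ℝ) ^ ((R + 2) * (2 * D + 2)) ≤
        |((v i).1 : ℝ) + ∑ j : J, ((v i).2.1 j : ℝ) * (∑' n : ℕ, 1 / ((n : ℝ) + 1) ^ (j : ℕ)) +
          ∑ k, ((v i).2.2 k : ℝ) * t k| := by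
  classical
  obtain ⟨q0, hq0⟩ := (Pool.Agent.Y926.TW.main b K s (2 * D + 2) hK (by omega) (by
    have : 132 * (2 * D + 2) = 264 * (D + 1) := by ring
    rw [this]; exact hs)).2
  obtain ⟨M, hM⟩ : ∃ M, M = q0 + 1 := ⟨_, rfl⟩
  refine ⟨(R + 1).factorial + (D + 1 + M) ^ (2 * D + 2) * M + 2, fun X hX t J hJ hmiss hcard v hv hvX => ?_⟩
  by_contra hcon
  push Not at hcon
  let z : ℕ → ℝ := fun j => ∑' n : ℕ, 1 / ((n : ℝ) + 1) ^ j
  let y : J ⊕ Fin r → ℝ := Sum.elim (fun j => z j) t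
  let N : Matrix (Fin R) (Option (J ⊕ Fin r)) ℤ :=
    fun i c => c.elim (v i).1 (Sum.elim (fun j => (v i).2.1 j) (fun k => (v i).2.2 k))
  let φ : (ℤ × (J → ℤ) × (Fin r → ℤ)) →ₗ[ℤ] (Option (J ⊕ Fin r) → ℤ) :=
    { toFun := fun w c => c.elim w.1 (Sum.elim (fun j => w.2.1 j) (fun k => w.2.2 k))
      map_add' := by
        intro x y; funext c
        rcases c with _ | (j | k) <;> simp
      map_smul' := by
        intro m x; funext c
        rcases c with _ | (j | k) <;> simp }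
  have hφ : LinearMap.ker φ = ⊥ := by
    rw [LinearMap.ker_eq_bot]
    intro x y hxy
    have h0 : ∀ c, φ x c = φ y c := fun c => congrFun hxy c
    refine Prod.ext (h0 none) (Prod.ext (funext fun j => h0 (some (Sum.inl j))) (funext fun k => h0 (some (Sum.inr k))))
  have hN : LinearIndependent ℤ (fun i => N i) := hv.map' φ hφ
  have hX1 : 1 ≤ X := by omega
  have hNX : ∀ i c, |N i c| ≤ (X : ℤ) := by
    intro i c
    have h1 := hvX i
    have key : ∀ a : ℤ, ‖a‖ ≤ (X : ℝ) → |a| ≤ (X : ℤ) := by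
      intro a ha
      rw [Int.norm_eq_abs, ← Int.cast_abs] at ha
      exact_mod_cast ha
    apply key
    rcases c with _ | (j | k)
    · exact (norm_fst_le (v i)).trans h1
    · exact ((norm_le_pi_norm (v i).2.1 j).trans (norm_fst_le (v i).2)).trans ((norm_snd_le (v i)).trans h1)
    · exact ((norm_le_pi_norm (v i).2.2 k).trans (norm_snd_le (v i).2)).trans ((norm_snd_le (v i)).trans h1)
  have hform : ∀ i, form N (ext1 y) i = ((v i).1 : ℝ) + ∑ j : J, ((v i).2.1 j : ℝ) * z j +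
      ∑ k, ((v i).2.2 k : ℝ) * t k := by
    intro i
    unfold form
    rw [Fintype.sum_option, Fintype.sum_sum_type]
    simp only [N, ext1, y, Option.elim, Sum.elim_inl, Sum.elim_inr, mul_one]
    ring
  set ε : ℝ := 1 / (X : ℝ) ^ ((R + 2) * (2 * D + 2)) with hεd
  have hε0 : 0 ≤ ε := by positivity
  have hε : ∀ i, |form N (ext1 y) i| ≤ ε := by
    intro i
    rw [hform i]
    exact (hcon i).le
  obtain ⟨H, hH⟩ : ∃ H, H = (R + 1).factorial * X ^ (R + 1) := ⟨_, rfl⟩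
  have hf1 : 1 ≤ (R + 1).factorial := Nat.factorial_pos _
  have hHX : X ≤ H := by
    rw [hH]
    calc X = 1 * X ^ 1 := by simp
      _ ≤ _ := Nat.mul_le_mul hf1 (Nat.pow_le_pow_right (by omega) (by omega))
  have hHX2 : H ≤ X ^ (R + 2) := by
    rw [hH]
    calc (R + 1).factorial * X ^ (R + 1) ≤ X * X ^ (R + 1) := Nat.mul_le_mul_right _ (by omega)
      _ = X ^ (R + 2) := by ring
  have hX2 : (2 : ℝ) ≤ X := by
    have : 2 ≤ X := by omega
    exact_mod_cast this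
  have hlt : (H : ℝ) * ε < 1 := by
    have h1 : (H : ℝ) ≤ (X : ℝ) ^ (R + 2) := by exact_mod_cast hHX2
    have h2 : (X : ℝ) ^ (R + 2) < (X : ℝ) ^ ((R + 2) * (2 * D + 2)) := by
      apply pow_lt_pow_right₀ (by linarith)
      nlinarith [Nat.zero_le D, Nat.zero_le R]
    rw [hεd, mul_one_div, div_lt_one (by positivity)]
    linarith
  obtain ⟨n, hn1, hn2, hn⟩ := transfer (D := D) N hN y hX1 hNX hε hε0 hH hlt (by
    rw [Fintype.card_sum, Fintype.card_coe, Fintype.card_fin]; exact hcard) (M := M) (Q := H ^ 2) (by omega)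
    (Nat.one_le_pow _ _ (by omega))
  have hK2 := hq0 n (by omega)
  -- one of the bad indices lies in `J`
  have hex : ∃ j ∈ J, ∀ p : ℤ, (n : ℝ) ^ (-(1 / ((2 * D + 2 : ℕ) : ℝ))) ≤ |(n : ℝ) * z j - p| := by
    by_contra hno
    push Not at hno
    have hsub : {j : ℕ | b < j ∧ j ≤ s ∧ Odd j ∧
        ∀ p : ℤ, (n : ℝ) ^ (-(1 / ((2 * D + 2 : ℕ) : ℝ))) ≤ |(n : ℝ) * (∑' m : ℕ, 1 / ((m : ℝ) + 1) ^ j) - p|} ⊆
        {j : ℕ | b < j ∧ j ≤ s ∧ Odd j ∧ j ∉ J} := by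
      rintro j ⟨g1, g2, g3, g4⟩
      refine ⟨g1, g2, g3, fun hj => ?_⟩
      obtain ⟨p, hp⟩ := hno j hj
      exact absurd (g4 p) (not_le.2 hp)
    have := Set.ncard_le_ncard hsub ((Set.finite_Iic s).subset fun j hj => hj.2.1)
    omega
  obtain ⟨j, hjJ, hj⟩ := hex
  obtain ⟨p, hp⟩ := hn (Sum.inl ⟨j, hjJ⟩)
  have h9 := numeric (R := R) (D := D) (by omega : 1 ≤ M) hX hH hn1 hn2 hp
  exact absurd (hj p) (not_le.2 h9)

end Pool.Agent.H55NR
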